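import Pool.Agent.Helper49.NF.Goals

/-!
# Packet NF-CMB (project NF of helper49, MP_0130f7_co)
-/

set_option autoImplicit false

namespace Pool.Agent.Helper88.NF

open Finset Nat
open Pool.Agent.Helper49.NF

lemma fac_le (q e : ℕ) : (q + e)! ≤ q ! * (q + e) ^ e := by
  rw [← Nat.factorial_mul_ascFactorial q e]
  exact Nat.mul_le_mul_left _ (Nat.ascFactorial_le_pow_add q e)

lemma fac_add_le (p r : ℕ) : (p + r)! ≤ 2 ^ (p + r) * (p ! * r !) := by
  rw [← Nat.add_choose_mul_factorial_mul_factorial p r, mul_assoc]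
  exact Nat.mul_le_mul_right _ (Nat.choose_le_two_pow _ _)

/-- the core inequality, `r = 0` -/
lemma core0 (m D f p e n : ℕ) (hm : m = p + e) (hn : 1 ≤ n) (hf : 4 * f ≤ D) (hD : 2 * m ≤ D) :
    2 ^ m * (2 * f) ^ p * m ^ e ≤ n * D ^ m := by
  have h1 : 2 ^ m * (2 * f) ^ p * m ^ e = (4 * f) ^ p * (2 * m) ^ e := by
    have h2 : 2 ^ m = 2 ^ p * 2 ^ e := by rw [hm, pow_add]
    rw [h2]
    have h3 : (4 * f) ^ p = 2 ^ p * (2 * f) ^ p := by rw [← mul_pow]; congr 1; ring
    have h4 : (2 * m) ^ e = 2 ^ e * m ^ e := mul_pow _ _ _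
    rw [h3, h4]; ring
  rw [h1]
  calc (4 * f) ^ p * (2 * m) ^ e ≤ D ^ p * D ^ e :=
        Nat.mul_le_mul (Nat.pow_le_pow_left hf p) (Nat.pow_le_pow_left hD e)
    _ = D ^ m := by rw [← pow_add, hm]
    _ ≤ n * D ^ m := Nat.le_mul_of_pos_left _ hn

/-- the core inequality, `r = s + 1` -/
lemma core1 (m D f p s e n : ℕ) (hm : m = p + (s + 1) + s + e) (hf : 4 * f ≤ D)
    (hD : 2 * m ≤ D) (hmn : 4 * (m * n) ≤ D ^ 2) :
    2 ^ m * (2 * f) ^ p * n ^ (s + 1) * m ^ (s + e) ≤ n * D ^ m := by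
  have h1 : 2 ^ m * (2 * f) ^ p * n ^ (s + 1) * m ^ (s + e)
      = 2 * n * ((4 * f) ^ p * (4 * (m * n)) ^ s * (2 * m) ^ e) := by
    have h2 : 2 ^ m = 2 * (2 ^ p * (2 ^ s * 2 ^ s) * 2 ^ e) := by
      have : m = p + (s + s) + e + 1 := by omega
      rw [this, pow_succ, pow_add, pow_add, pow_add]
      ring
    rw [h2]
    have h3 : (4 * f) ^ p = 2 ^ p * (2 * f) ^ p := by rw [← mul_pow]; congr 1; ring
    have h4 : (2 * m) ^ e = 2 ^ e * m ^ e := mul_pow _ _ _
    have h5 : (4 * (m * n)) ^ s = 2 ^ s * 2 ^ s * (m ^ s * n ^ s) := by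
      rw [← mul_pow, ← mul_pow, ← mul_pow]
      norm_num
    rw [h3, h4, h5, pow_succ n s, pow_add m s e]
    ring
  have h6 : m = p + 2 * s + e + 1 := by omega
  have hD2 : 2 ≤ D := by omega
  rw [h1]
  calc 2 * n * ((4 * f) ^ p * (4 * (m * n)) ^ s * (2 * m) ^ e)
      ≤ 2 * n * (D ^ p * (D ^ 2) ^ s * D ^ e) :=
        Nat.mul_le_mul_left _ (Nat.mul_le_mul (Nat.mul_le_mul (Nat.pow_le_pow_left hf p)
          (Nat.pow_le_pow_left hmn s)) (Nat.pow_le_pow_left hD e))
    _ = 2 * n * D ^ (p + 2 * s + e) := by rw [← pow_mul, ← pow_add, ← pow_add]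
    _ ≤ D * n * D ^ (p + 2 * s + e) := Nat.mul_le_mul_right _ (Nat.mul_le_mul_right _ hD2)
    _ = n * D ^ m := by
        conv_rhs => rw [h6, pow_succ]
        ring

theorem goal_CMB : Goal_CMB := by
  intro n m z f p r hm hmz hzn hf hmn hD hpr
  have hzm : (z - m) ^ m ≤ m ! * z.choose m := by
    rw [← Nat.descFactorial_eq_factorial_mul_choose]
    exact (Nat.pow_le_pow_left (by omega) m).trans (Nat.pow_sub_le_descFactorial z m)
  have hfp : p ! * f.choose p ≤ f ^ p := by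
    rw [← Nat.descFactorial_eq_factorial_mul_choose]
    exact Nat.descFactorial_le_pow _ _
  have hnr : r ! * (n / 2).choose r ≤ (n / 2) ^ r := by
    rw [← Nat.descFactorial_eq_factorial_mul_choose]
    exact Nat.descFactorial_le_pow _ _
  have hn1 : 1 ≤ n := by omega
  by_cases hq : p + r ≤ m
  · -- the core
    have hcore : 2 ^ m * (2 * f) ^ p * n ^ r * m ^ (m - (p + r)) ≤ n * (z - m) ^ m := by
      rcases Nat.eq_zero_or_pos r with hr | hr
      · subst hr
        rw [pow_zero, mul_one, Nat.add_zero]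
        exact core0 m (z - m) f p (m - p) n (by omega) hn1 hf hD
      · obtain ⟨s, rfl⟩ : ∃ s, r = s + 1 := ⟨r - 1, by omega⟩
        have h1 : m - (p + (s + 1)) = s + (m - (p + (s + 1)) - s) := by omega
        rw [h1]
        exact core1 m (z - m) f p s (m - (p + (s + 1)) - s) n (by omega) hf hD hmn
    have hfac : m ! ≤ 2 ^ (p + r) * (p ! * r !) * m ^ (m - (p + r)) := by
      have h1 := fac_le (p + r) (m - (p + r))
      have h2 : p + r + (m - (p + r)) = m := by omega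
      rw [h2] at h1
      exact h1.trans (Nat.mul_le_mul_right _ (fac_add_le p r))
    have hn2 : 2 ^ r * (n / 2) ^ r ≤ n ^ r := by
      rw [← mul_pow]
      exact Nat.pow_le_pow_left (Nat.mul_div_le n 2) r
    have hpos : 0 < m ! * (p ! * r !) := by positivity
    refine Nat.le_of_mul_le_mul_left ?_ hpos
    calc m ! * (p ! * r !) * (2 ^ m * (f.choose p * (n / 2).choose r))
        = 2 ^ m * (p ! * f.choose p) * (r ! * (n / 2).choose r) * m ! := by ring
      _ ≤ 2 ^ m * f ^ p * (n / 2) ^ r * (2 ^ (p + r) * (p ! * r !) * m ^ (m - (p + r))) :=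
          Nat.mul_le_mul (Nat.mul_le_mul (Nat.mul_le_mul_left _ hfp) hnr) hfac
      _ = 2 ^ m * (2 * f) ^ p * (2 ^ r * (n / 2) ^ r) * m ^ (m - (p + r)) * (p ! * r !) := by
          rw [pow_add, mul_pow 2 f p]
          ring
      _ ≤ 2 ^ m * (2 * f) ^ p * n ^ r * m ^ (m - (p + r)) * (p ! * r !) :=
          Nat.mul_le_mul_right _ (Nat.mul_le_mul_right _ (Nat.mul_le_mul_left _ hn2))
      _ ≤ n * (z - m) ^ m * (p ! * r !) := Nat.mul_le_mul_right _ hcore
      _ ≤ n * (m ! * z.choose m) * (p ! * r !) :=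
          Nat.mul_le_mul_right _ (Nat.mul_le_mul_left _ hzm)
      _ = m ! * (p ! * r !) * (n * z.choose m) := by ring
  · have hr : r = 0 := by omega
    have hp : p = m + 1 := by omega
    subst hr hp
    rw [Nat.choose_zero_right, mul_one]
    have hpos : 0 < (m + 1)! := Nat.factorial_pos _
    refine Nat.le_of_mul_le_mul_left ?_ hpos
    have h2f : (2 * f) ^ m ≤ (z - m) ^ m := Nat.pow_le_pow_left (by omega) m
    have hfn : f ≤ n * (m + 1) := by
      have : f ≤ n := by omega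
      exact this.trans (Nat.le_mul_of_pos_right _ (by omega))
    calc (m + 1)! * (2 ^ m * f.choose (m + 1)) = 2 ^ m * ((m + 1)! * f.choose (m + 1)) := by ring
      _ ≤ 2 ^ m * f ^ (m + 1) := Nat.mul_le_mul_left _ hfp
      _ = (2 * f) ^ m * f := by rw [pow_succ, mul_pow]; ring
      _ ≤ (z - m) ^ m * (n * (m + 1)) := Nat.mul_le_mul h2f hfn
      _ ≤ (m ! * z.choose m) * (n * (m + 1)) := Nat.mul_le_mul_right _ hzm
      _ = (m + 1)! * (n * z.choose m) := by rw [Nat.factorial_succ]; ring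

end Pool.Agent.Helper88.NF
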