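import Pool.Agent.Helper49.NF.Goals

/-!
# Packet NF-CYC (project NF of helper49, MP_0130f7_co): sets invariant under one permutation
-/

set_option autoImplicit false

namespace Pool.Agent.Helper88.NF

open Finset
open Pool.Agent.Helper47.SR (Grp mv lev wt Ew W IsInv up dn StarAt HalfStarAt)
open Pool.Agent.Helper49.NF

variable {n : ℕ}

lemma two_mul_le (γ : Equiv.Perm (Fin n)) (R : Finset (Equiv.Perm (Fin n)))
    (hR : R ⊆ γ.cycleFactorsFinset) : 2 * #R ≤ #(R.biUnion fun c => c.support) := by
  rw [card_biUnion]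
  · calc 2 * #R = ∑ _c ∈ R, 2 := by rw [sum_const, smul_eq_mul, mul_comm]
      _ ≤ ∑ c ∈ R, #c.support := sum_le_sum fun c hc =>
          (Equiv.Perm.mem_cycleFactorsFinset_iff.1 (hR hc)).1.two_le_card_support
  · intro c hc d hd hcd
    exact (Equiv.Perm.cycleFactorsFinset_pairwise_disjoint γ (hR hc) (hR hd) hcd).disjoint_support

lemma pow_mem (γ : Equiv.Perm (Fin n)) (A : Finset (Fin n)) (hA : mv γ A = A) (i : ℕ) :
    ∀ x ∈ A, (γ ^ i) x ∈ A := by
  induction i with
  | zero => intro x hx; simpa using hx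
  | succ i ih =>
    intro x hx
    have h1 : γ x ∈ A := by
      rw [← hA]
      exact mem_map.2 ⟨x, hx, rfl⟩
    have h2 := ih _ h1
    rw [pow_succ, Equiv.Perm.mul_apply]
    exact h2

lemma decomp (γ : Equiv.Perm (Fin n)) (A : Finset (Fin n)) (hA : mv γ A = A) :
    A = A.filter (fun x => γ x = x) ∪
      (γ.cycleFactorsFinset.filter fun c => c.support ⊆ A).biUnion fun c => c.support := by
  ext x
  rw [mem_union, mem_filter, mem_biUnion]
  constructor
  · intro hx
    by_cases h : γ x = x
    · exact Or.inl ⟨hx, h⟩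
    · right
      have hs : x ∈ γ.support := Equiv.Perm.mem_support.2 h
      refine ⟨γ.cycleOf x, mem_filter.2 ⟨Equiv.Perm.cycleOf_mem_cycleFactorsFinset_iff.2 hs, ?_⟩,
        ?_⟩
      · intro y hy
        rw [Equiv.Perm.mem_support_cycleOf_iff] at hy
        obtain ⟨i, _, hi⟩ := hy.1.exists_pow_eq'
        rw [← hi]
        exact pow_mem γ A hA i x hx
      · rw [Equiv.Perm.mem_support_cycleOf_iff]
        exact ⟨Equiv.Perm.SameCycle.refl _ _, hs⟩
  · rintro (h | ⟨c, hc, hx⟩)
    · exact h.1
    · exact (mem_filter.1 hc).2 hx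

theorem goal_CYC : Goal_CYC := by
  intro n γ j
  set Fx : Finset (Fin n) := univ.filter fun x => γ x = x with hFx
  set Cy : Finset (Equiv.Perm (Fin n)) := γ.cycleFactorsFinset with hCy
  have hcy : #Cy ≤ n / 2 := by
    have h1 := two_mul_le γ Cy (Subset.refl _)
    have h2 : #(Cy.biUnion fun c => c.support) ≤ n := by
      refine (card_le_univ _).trans ?_
      rw [Fintype.card_fin]
    omega
  set g : Finset (Fin n) × Finset (Equiv.Perm (Fin n)) → Finset (Fin n) :=
    fun q => q.1 ∪ q.2.biUnion fun c => c.support with hg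
  set T : Finset (Finset (Fin n) × Finset (Equiv.Perm (Fin n))) :=
    (range (j + 1) ×ˢ range (j + 1)).biUnion fun pr =>
      if pr.1 + 2 * pr.2 ≤ j then powersetCard pr.1 Fx ×ˢ powersetCard pr.2 Cy else ∅ with hT
  have hsub : (lev n j).filter (fun A => mv γ A = A) ⊆ T.image g := by
    intro A hA
    rw [mem_filter] at hA
    obtain ⟨hA1, hA2⟩ := hA
    have hAj : #A = j := (mem_powersetCard.1 hA1).2
    have hd := decomp γ A hA2
    have hlt : #(A.filter fun x => γ x = x) + 2 * #(Cy.filter fun c => c.support ⊆ A) ≤ j := by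
      have h1 := two_mul_le γ (Cy.filter fun c => c.support ⊆ A) (filter_subset _ _)
      have h2 : Disjoint (A.filter fun x => γ x = x)
          ((Cy.filter fun c => c.support ⊆ A).biUnion fun c => c.support) := by
        rw [disjoint_left]
        intro x hx hx2
        obtain ⟨c, hc, hxc⟩ := mem_biUnion.1 hx2
        have h3 := Equiv.Perm.mem_cycleFactorsFinset_support_le (mem_filter.1 hc).1 hxc
        exact Equiv.Perm.mem_support.1 h3 (mem_filter.1 hx).2
      have h3 := card_union_of_disjoint h2
      rw [← hd, hAj] at h3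
      omega
    rw [mem_image]
    refine ⟨(A.filter fun x => γ x = x, Cy.filter fun c => c.support ⊆ A), ?_, hd.symm⟩
    rw [hT, mem_biUnion]
    refine ⟨(#(A.filter fun x => γ x = x), #(Cy.filter fun c => c.support ⊆ A)), ?_, ?_⟩
    · rw [mem_product, mem_range, mem_range]
      constructor
      · show #(A.filter fun x => γ x = x) < j + 1
        omega
      · show #(Cy.filter fun c => c.support ⊆ A) < j + 1
        omega
    · rw [if_pos hlt, mem_product]
      exact ⟨mem_powersetCard.2 ⟨filter_subset_filter _ (subset_univ _), rfl⟩,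
        mem_powersetCard.2 ⟨filter_subset _ _, rfl⟩⟩
  calc #((lev n j).filter (fun A => mv γ A = A)) ≤ #(T.image g) := card_le_card hsub
    _ ≤ #T := card_image_le
    _ ≤ ∑ pr ∈ range (j + 1) ×ˢ range (j + 1),
        #(if pr.1 + 2 * pr.2 ≤ j then powersetCard pr.1 Fx ×ˢ powersetCard pr.2 Cy else ∅) :=
        card_biUnion_le
    _ ≤ ∑ pr ∈ range (j + 1) ×ˢ range (j + 1),
        (if pr.1 + 2 * pr.2 ≤ j then (fx γ).choose pr.1 * (n / 2).choose pr.2 else 0) := by
        refine sum_le_sum fun pr _ => ?_
        split_ifs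
        · rw [card_product, card_powersetCard, card_powersetCard]
          exact Nat.mul_le_mul_left _ (Nat.choose_le_choose _ hcy)
        · simp
    _ = _ := sum_product _ _ _

end Pool.Agent.Helper88.NF
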